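import Pool.Agent.H83.FS.Stm

/-!
The step NOCLAW of project FS (helper83, MP_16c8e2_co).
-/

set_option autoImplicit false

namespace Pool.Agent.H282.FS83

open SimpleGraph Pool.Agent.H83.FS

theorem noclaw (h1 : S_bring) (h2 : S_drive) (h3 : S_claw1) (h4 : S_link) : S_noclaw := by
  intro V T _ _ _ Y col σ b b' K p j y y' hF hK hbK hb'K hinj hadj hp0 hp1 hpK hy hy' hyy hyp hyp'
    hay hay' hcard
  obtain ⟨⟨hbb, hcol, hnL⟩, _⟩ := hF
  have hZ : ((Finset.Icc 2 (j + 1)).image p ∪ {y, y'}).card ≤ j + 2 := by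
    refine (Finset.card_union_le _ _).trans (Nat.add_le_add ?_ ?_)
    · refine Finset.card_image_le.trans ?_
      rw [Nat.card_Icc]
      omega
    · exact Finset.card_le_two
  have hZK : (Finset.Icc 2 (j + 1)).image p ∪ {y, y'} ⊆ K := by
    intro x hx
    rw [Finset.mem_union, Finset.mem_image, Finset.mem_insert, Finset.mem_singleton] at hx
    rcases hx with ⟨i, hi, rfl⟩ | rfl | rfl
    · rw [Finset.mem_Icc] at hi
      exact hpK i hi.1 hi.2
    · exact hy
    · exact hy'
  obtain ⟨τ, hτ, hτP, hτZ, _⟩ := h1 V T Y col (fun x => x ≠ σ b ∧ x ≠ σ b') K _ (!(col b)) σ hK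
    hZK (hZ.trans hcard)
  have hτb : τ b = σ b := by
    have := hτP (σ b) (fun h => h.1 rfl)
    rw [Equiv.symm_apply_apply] at this
    rw [← this, Equiv.apply_symm_apply]
    rw [this]
  have hτb' : τ b' = σ b' := by
    have := hτP (σ b') (fun h => h.2 rfl)
    rw [Equiv.symm_apply_apply] at this
    rw [← this, Equiv.apply_symm_apply]
    rw [this]
  have hτp : ∀ i, 2 ≤ i → i ≤ j + 1 → pc col τ (p i) = !(col b) := by
    intro i hi hij
    refine hτZ _ (Finset.mem_union_left _ (Finset.mem_image.2 ⟨i, Finset.mem_Icc.2 ⟨hi, hij⟩, rfl⟩))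
  obtain ⟨υ, hυ, hυb', hυb, hυx⟩ := h2 V T Y col τ b b' p j hbb hcol hinj hadj
    (hτb'.trans hp0) (hτb.trans hp1) hτp
  have hsb : υ.symm (p (j + 1)) = b := by rw [← hυb, Equiv.symm_apply_apply]
  have hsb' : υ.symm (p j) = b' := by rw [← hυb', Equiv.symm_apply_apply]
  have hpx : pc col υ (p (j + 1)) = col b := by
    unfold pc
    rw [hsb]
  have hpy : pc col υ y = !(col b) := by
    unfold pc
    rw [hυx y hyp]
    exact hτZ y (Finset.mem_union_right _ (by simp))
  have hpy' : pc col υ y' = !(col b) := by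
    unfold pc
    rw [hυx y' hyp']
    exact hτZ y' (Finset.mem_union_right _ (by simp))
  have hL := h3 V T Y col υ (p (j + 1)) (p j) y y' (hadj j le_rfl).symm hay hay'
    (hyp j (Nat.le_succ j)).symm (hyp' j (Nat.le_succ j)).symm hyy
    (by rw [hpx]; unfold pc; rw [hsb', hcol]) (by rw [hpx, hpy]) (by rw [hpx, hpy'])
  rw [hsb, hsb'] at hL
  exact hnL ((h4 V T Y col).1 υ σ b b' (hτ.trans hυ).symm hcol hL)

end Pool.Agent.H282.FS83
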